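import Pool.Agent.H42.TS.Var

/-!
# The CLT for two-sided stationary Markov processes: standard Borel state space

Helper file for the two-sided version of the CLT of MP_bedcbf_pr.
-/

set_option autoImplicit false

open MeasureTheory ProbabilityTheory Filter
open scoped ENNReal NNReal Topology

namespace Pool.Agent.H42.TS

variable {S : Type} {mS : MeasurableSpace S} {Ω : Type} {mΩ : MeasurableSpace Ω} {P : Measure Ω}
  {ξ : ℤ → Ω → S}

namespace Stat

variable [StandardBorelSpace S] [Nonempty S] [IsProbabilityMeasure P]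

/-- The CLT for a standard Borel state space. -/
theorem clt_std (H : Stat mS P ξ)
    (he : Ergodic (shf : (ℤ → S) → (ℤ → S)) (P.map fun ω n => ξ n ω))
    {f : S → ℝ} (hf : Measurable f) (hf2 : MemLp (fun ω => f (ξ 0 ω)) 2 P)
    (hfwd : Summable fun k : ℕ =>
      ∫ ω, (P[fun ω => f (ξ ((k : ℤ) + 1) ω)|mS.comap (ξ 0)] ω) ^ 2 ∂P)
    (hbwd : Summable fun k : ℕ =>
      ∫ ω, (P[fun ω => f (ξ (-((k : ℤ) + 1)) ω)|mS.comap (ξ 0)] ω) ^ 2 ∂P) :
    ∃ v : NNReal, HasSum (fun k : ℕ => 2 * ∫ ω, f (ξ 0 ω) * f (ξ ((k : ℤ) + 1) ω) ∂P)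
        ((v : ℝ) - ∫ ω, (f (ξ 0 ω)) ^ 2 ∂P) ∧ ∀ g : ℝ → ℝ, Continuous g → (∃ C : ℝ, ∀ x, |g x| ≤ C) →
      Tendsto (fun n : ℕ => ∫ ω, g ((Real.sqrt n)⁻¹ * ∑ i ∈ Finset.Icc 1 n, f (ξ (i : ℤ) ω)) ∂P)
        atTop (𝓝 (∫ x, g x ∂(gaussianReal 0 v))) := by
  set Q := condDistrib (ξ 1) (ξ 0) P with hQ
  have : IsProbabilityMeasure (P.map (ξ 0)) :=
    Measure.isProbabilityMeasure_map (H.meas 0).aemeasurable
  have hfi : Integrable (fun ω => f (ξ 0 ω)) P := hf2.integrable (by norm_num)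
  have hcomp : (P.map (ξ 0)).bind Q = P.map (ξ 0) := by
    have h1 := condDistrib_comp_map (μ := P) (H.meas 0).aemeasurable (H.meas 1).aemeasurable
    rw [one_law H.meas H.pres 1] at h1
    exact h1
  have hmain := main_var S Q (P.map (ξ 0)) f hcomp (fun A hA h => H.ergodic_set he hA h) hf
    ((memLp_map_measure_iff hf.aestronglyMeasurable (H.meas 0).aemeasurable).2 hf2)
    (by
      refine hfwd.congr fun k => ?_
      have h1 : ∫ x, ((T Q)^[k + 1] f x) ^ 2 ∂(P.map (ξ 0))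
          = ∫ ω, ((T Q)^[k + 1] f (ξ 0 ω)) ^ 2 ∂P :=
        integral_map (H.meas 0).aemeasurable
          ((measurable_iter (Q := Q) (k + 1) hf).pow_const 2).aestronglyMeasurable
      refine Eq.trans ?_ h1.symm
      refine integral_congr_ae ?_
      filter_upwards [H.iter_zero (k + 1) hf hfi] with ω hω
      rw [← hω]
      push_cast
      rfl)
    ⟨_, hbwd, fun k g hg hgb hg1 => by
      have := H.bwd (k + 1) hf hf2 hg hgb hg1
      push_cast at this
      exact this⟩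
    Ω P (fun i => ξ ((i : ℤ) + 1)) (fun i => H.meas _)
    (one_law H.meas H.pres _)
    (by
      intro n A hA
      have hle : (⨆ i ≤ n, mS.comap (ξ ((i : ℤ) + 1))) ≤ past mS ξ ((n : ℤ) + 1) :=
        iSup₂_le fun i hi => comap_le_past (by omega)
      have hle2 : mS.comap (ξ ((n : ℤ) + 1)) ≤ ⨆ i ≤ n, mS.comap (ξ ((i : ℤ) + 1)) :=
        le_iSup₂_of_le (f := fun (i : ℕ) (_ : i ≤ n) => mS.comap (ξ ((i : ℤ) + 1))) n le_rfl le_rfl
      have h1 := condExp_condExp_of_le (μ := P)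
        (f := (ξ ((n : ℤ) + 1 + 1) ⁻¹' A).indicator (fun _ => (1 : ℝ))) hle (past_le H.meas _)
      have h2 := H.markov ((n : ℤ) + 1) A hA
      have h3 := condDistrib_ae_eq_condExp (μ := P) (H.meas ((n : ℤ) + 1))
        (H.meas ((n : ℤ) + 1 + 1)) hA
      rw [H.condDistrib_eq ((n : ℤ) + 1)] at h3
      have h4 := h2.trans h3.symm
      have h5 := condExp_congr_ae (m := ⨆ i ≤ n, mS.comap (ξ ((i : ℤ) + 1))) h4
      have h6 : P[fun ω => (Q (ξ ((n : ℤ) + 1) ω)).real A|⨆ i ≤ n, mS.comap (ξ ((i : ℤ) + 1))]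
          = fun ω => (Q (ξ ((n : ℤ) + 1) ω)).real A := by
        refine condExp_of_stronglyMeasurable (hle.trans (past_le H.meas _)) ?_ ?_
        · refine StronglyMeasurable.mono (Measurable.stronglyMeasurable ?_) hle2
          exact ((Kernel.measurable_coe Q hA).comp (comap_measurable _)).ennreal_toReal
        · exact integrable_condExp.congr h3.symm
      rw [h6] at h5
      push_cast
      exact h1.symm.trans h5)
  obtain ⟨v, hs, hv⟩ := hmain
  refine ⟨v, ?_, fun g hg hgb => ?_⟩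
  · have e1 : ∀ k : ℕ, 2 * ∫ x, f x * (T Q)^[k + 1] f x ∂(P.map (ξ 0))
        = 2 * ∫ ω, f (ξ 0 ω) * f (ξ ((k : ℤ) + 1) ω) ∂P := by
      intro k
      rw [H.cov_eq (k + 1) hf hf2 hf hf2]
      push_cast
      rfl
    have e2 : ∫ x, (f x) ^ 2 ∂(P.map (ξ 0)) = ∫ ω, (f (ξ 0 ω)) ^ 2 ∂P :=
      integral_map (H.meas 0).aemeasurable (hf.pow_const 2).aestronglyMeasurable
    simpa only [e1, e2] using hs
  refine (hv g hg hgb).congr fun n => ?_
  refine integral_congr_ae (Filter.Eventually.of_forall fun ω => ?_)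
  simp only
  congr 2
  have hsum : ∀ (a : ℕ → ℝ) (n : ℕ), ∑ i ∈ Finset.range n, a (i + 1) = ∑ i ∈ Finset.Icc 1 n, a i := by
    intro a n
    induction n with
    | zero => simp
    | succ n ih => rw [Finset.sum_range_succ, ih, Finset.sum_Icc_succ_top (by omega)]
  have := hsum (fun i => f (ξ (i : ℤ) ω)) n
  push_cast at this
  exact this

end Stat

end Pool.Agent.H42.TS
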