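import Mathlib

/-!
# Conditional expectations: from a generating pi-system to functions

Helper file for the two-sided version of the CLT of MP_bedcbf_pr.
-/

set_option autoImplicit false

open MeasureTheory ProbabilityTheory
open scoped ENNReal NNReal

namespace Pool.Agent.H42.TS

variable {Ω : Type*}

/-- `∫ P[u|m] v = ∫ P[u|m] P[v|m]`. -/
theorem pull {m mΩ : MeasurableSpace Ω} {P : Measure Ω} [IsProbabilityMeasure P] (hm : m ≤ mΩ) {u v : Ω → ℝ} (hv : Integrable v P)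
    (huv : Integrable (fun ω => (P[u|m]) ω * v ω) P) :
    ∫ ω, (P[u|m]) ω * v ω ∂P = ∫ ω, (P[u|m]) ω * (P[v|m]) ω ∂P := by
  have h := condExp_mul_of_stronglyMeasurable_left (μ := P) (m := m)
    (stronglyMeasurable_condExp (f := u)) (g := v) huv hv
  have h2 : ∫ ω, (P[(P[u|m]) * v|m]) ω ∂P = ∫ ω, ((P[u|m]) * v) ω ∂P := integral_condExp hm
  have h3 : ∫ ω, (P[u|m]) ω * v ω ∂P = ∫ ω, ((P[u|m]) * v) ω ∂P := rfl
  rw [h3, ← h2]
  exact integral_congr_ae h

/-- `∫ u P[v|m] = ∫ P[u|m] v`. -/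
theorem selfadj {m mΩ : MeasurableSpace Ω} {P : Measure Ω} [IsProbabilityMeasure P] (hm : m ≤ mΩ) {u v : Ω → ℝ} (hu : Integrable u P)
    (hv : Integrable v P) (huv : Integrable (fun ω => (P[u|m]) ω * v ω) P)
    (hvu : Integrable (fun ω => (P[v|m]) ω * u ω) P) :
    ∫ ω, u ω * (P[v|m]) ω ∂P = ∫ ω, (P[u|m]) ω * v ω ∂P := by
  rw [pull hm hv huv]
  have h1 : ∫ ω, u ω * (P[v|m]) ω ∂P = ∫ ω, (P[v|m]) ω * u ω ∂P :=
    integral_congr_ae (Filter.Eventually.of_forall fun ω => mul_comm _ _)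
  rw [h1, pull hm hu hvu]
  exact integral_congr_ae (Filter.Eventually.of_forall fun ω => mul_comm _ _)

/-- Bounded conditional expectation of an indicator. -/
theorem condInd_bdd {m mΩ : MeasurableSpace Ω} {P : Measure Ω} {B : Set Ω} :
    ∀ᵐ ω ∂P, |(P[B.indicator (fun _ => (1 : ℝ))|m]) ω| ≤ 1 := by
  exact ae_bdd_abs_condExp_of_ae_bdd_abs (m := m) (μ := P) (R := (1 : ℝ))
    (f := B.indicator (fun _ => (1 : ℝ))) (Filter.Eventually.of_forall fun ω => by
      by_cases h : ω ∈ B <;> simp [h])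

theorem condInd_nonneg {m mΩ : MeasurableSpace Ω} {P : Measure Ω} {B : Set Ω} :
    ∀ᵐ ω ∂P, 0 ≤ (P[B.indicator (fun _ => (1 : ℝ))|m]) ω := by
  have h := condExp_nonneg (m := m) (μ := P) (f := B.indicator (fun _ => (1 : ℝ)))
    (Filter.Eventually.of_forall fun ω => by
      by_cases h : ω ∈ B <;> simp [h])
  exact h

/-- An equality of conditional probabilities on a generating pi-system passes to all integrable
functions. -/
theorem cond_fun {S : Type*} {mS : MeasurableSpace S} {m₁ m₂ mΩ : MeasurableSpace Ω}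
    {P : Measure Ω} [IsProbabilityMeasure P]
    (h12 : m₁ ≤ m₂) (h2 : m₂ ≤ mΩ) {Y : Ω → S} (hY : Measurable Y) (C : Set (Set S))
    (hC : ∀ A ∈ C, MeasurableSet A) (hpi : IsPiSystem C) (hgen : mS = MeasurableSpace.generateFrom C)
    (hA : ∀ A ∈ C, P[(Y ⁻¹' A).indicator (fun _ => (1 : ℝ))|m₂] =ᵐ[P]
      P[(Y ⁻¹' A).indicator (fun _ => (1 : ℝ))|m₁])
    {h : S → ℝ} (hh : Measurable h) (hhi : Integrable (fun ω => h (Y ω)) P) :
    P[fun ω => h (Y ω)|m₂] =ᵐ[P] P[fun ω => h (Y ω)|m₁] := by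
  have h1 : m₁ ≤ mΩ := h12.trans h2
  refine (ae_eq_condExp_of_forall_setIntegral_eq h2 hhi
    (fun s _ _ => integrable_condExp.integrableOn) ?_
    (stronglyMeasurable_condExp.mono h12).aestronglyMeasurable).symm
  intro B hB _
  have hB' : MeasurableSet B := h2 _ hB
  set b : Ω → ℝ := P[B.indicator (fun _ => (1 : ℝ))|m₁] with hb
  have hb0 : ∀ᵐ ω ∂P, 0 ≤ b ω := condInd_nonneg
  have hb1 : ∀ᵐ ω ∂P, |b ω| ≤ 1 := condInd_bdd
  have hbm : StronglyMeasurable[m₁] b := stronglyMeasurable_condExp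
  have hbm' : Measurable b := (hbm.mono h1).measurable
  have hbi : Integrable b P := integrable_condExp
  have hBi : Integrable (B.indicator (fun _ => (1 : ℝ))) P := (integrable_const _).indicator hB'
  -- the key identity, for integrable `k`
  have key : ∀ k : Ω → ℝ, Integrable k P →
      ∫ ω in B, (P[k|m₁]) ω ∂P = ∫ ω, b ω * k ω ∂P := by
    intro k hk
    have e1 : ∫ ω in B, (P[k|m₁]) ω ∂P
        = ∫ ω, B.indicator (fun _ => (1 : ℝ)) ω * (P[k|m₁]) ω ∂P := by
      rw [← integral_indicator hB']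
      refine integral_congr_ae (Filter.Eventually.of_forall fun ω => ?_)
      by_cases hω : ω ∈ B <;> simp [hω]
    rw [e1]
    refine selfadj h1 hBi hk ?_ ?_
    · exact hk.bdd_mul (c := 1) hbi.aestronglyMeasurable (by simpa using hb1)
    · have : Integrable (fun ω => B.indicator (fun _ => (1 : ℝ)) ω * (P[k|m₁]) ω) P :=
        integrable_condExp.bdd_mul (c := 1) hBi.aestronglyMeasurable
          (Filter.Eventually.of_forall fun ω => by by_cases hω : ω ∈ B <;> simp [hω])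
      exact this.congr (Filter.Eventually.of_forall fun ω => mul_comm _ _)
  rw [key _ hhi]
  -- two measures on `S`
  set ρ : Measure Ω := P.withDensity (fun ω => ENNReal.ofReal (b ω)) with hρ
  have hmeas : (P.restrict B).map Y = ρ.map Y := by
    have hone : ∀ A : Set S, MeasurableSet A →
        P[(Y ⁻¹' A).indicator (fun _ => (1 : ℝ))|m₂] =ᵐ[P]
          P[(Y ⁻¹' A).indicator (fun _ => (1 : ℝ))|m₁] →
        (P.restrict B).map Y A = ρ.map Y A := by
      intro A hAm hA2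
      have hYA : MeasurableSet (Y ⁻¹' A) := hY hAm
      have hYi : Integrable ((Y ⁻¹' A).indicator (fun _ => (1 : ℝ))) P :=
        (integrable_const _).indicator hYA
      rw [Measure.map_apply hY hAm, Measure.map_apply hY hAm, hρ, withDensity_apply _ hYA,
        ← ofReal_integral_eq_lintegral_ofReal hbi.integrableOn
          (ae_restrict_of_ae hb0)]
      have e2 : ∫ ω in Y ⁻¹' A, b ω ∂P = ∫ ω, b ω * (Y ⁻¹' A).indicator (fun _ => (1 : ℝ)) ω ∂P := by
        rw [← integral_indicator hYA]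
        refine integral_congr_ae (Filter.Eventually.of_forall fun ω => ?_)
        by_cases hω : ω ∈ Y ⁻¹' A <;> simp [hω]
      rw [e2, ← key _ hYi]
      have e3 : ∫ ω in B, (P[(Y ⁻¹' A).indicator (fun _ => (1 : ℝ))|m₁]) ω ∂P
          = ∫ ω in B, (P[(Y ⁻¹' A).indicator (fun _ => (1 : ℝ))|m₂]) ω ∂P :=
        integral_congr_ae (ae_restrict_of_ae hA2.symm)
      rw [e3, setIntegral_condExp h2 hYi hB, integral_indicator_const _ hYA, smul_eq_mul, mul_one,
        ofReal_measureReal]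
    refine ext_of_generate_finite C hgen hpi (fun A hAC => hone A (hC A hAC) (hA A hAC)) ?_
    refine hone Set.univ MeasurableSet.univ ?_
    have : (Y ⁻¹' Set.univ).indicator (fun _ => (1 : ℝ)) = fun _ => (1 : ℝ) := by
      ext ω; simp
    rw [this, condExp_const h2, condExp_const h1]
  calc ∫ ω, b ω * h (Y ω) ∂P
      = ∫ ω, (ENNReal.ofReal (b ω)).toReal • h (Y ω) ∂P := by
        refine integral_congr_ae ?_
        filter_upwards [hb0] with ω hω
        rw [ENNReal.toReal_ofReal hω, smul_eq_mul]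
    _ = ∫ ω, h (Y ω) ∂ρ := by
        rw [hρ, integral_withDensity_eq_integral_toReal_smul hbm'.ennreal_ofReal
          (Filter.Eventually.of_forall fun _ => ENNReal.ofReal_lt_top)]
    _ = ∫ x, h x ∂(ρ.map Y) := (integral_map hY.aemeasurable hh.aestronglyMeasurable).symm
    _ = ∫ x, h x ∂((P.restrict B).map Y) := by rw [hmeas]
    _ = ∫ ω in B, h (Y ω) ∂P := integral_map hY.aemeasurable hh.aestronglyMeasurable

/-- The conditional expectation contracts the `L²` norm. -/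
theorem condExp_sq_le {m mΩ : MeasurableSpace Ω} {P : Measure Ω} [IsProbabilityMeasure P] (hm : m ≤ mΩ) {u : Ω → ℝ} (hu : MemLp u 2 P) :
    ∫ ω, ((P[u|m]) ω) ^ 2 ∂P ≤ ∫ ω, (u ω) ^ 2 ∂P := by
  have hc : MemLp (P[u|m]) 2 P := hu.condExp (by norm_num)
  have h1 : ∫ ω, (P[u|m]) ω * u ω ∂P = ∫ ω, (P[u|m]) ω * (P[u|m]) ω ∂P :=
    pull hm (hu.integrable (by norm_num)) (hc.integrable_mul hu)
  have h2 : 0 ≤ ∫ ω, (u ω - (P[u|m]) ω) ^ 2 ∂P := integral_nonneg fun ω => sq_nonneg _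
  have h3 : ∫ ω, (u ω - (P[u|m]) ω) ^ 2 ∂P
      = ∫ ω, (u ω) ^ 2 ∂P - 2 * ∫ ω, (P[u|m]) ω * u ω ∂P + ∫ ω, (P[u|m]) ω * (P[u|m]) ω ∂P := by
    have i1 : Integrable (fun ω => (u ω) ^ 2) P := hu.integrable_sq
    have i2 : Integrable (fun ω => (P[u|m]) ω * u ω) P := hc.integrable_mul hu
    have i3 : Integrable (fun ω => (P[u|m]) ω * (P[u|m]) ω) P := hc.integrable_mul hc
    have e1 : ∫ ω, ((u ω) ^ 2 - 2 * ((P[u|m]) ω * u ω)) ∂P
        = ∫ ω, (u ω) ^ 2 ∂P - 2 * ∫ ω, (P[u|m]) ω * u ω ∂P := by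
      rw [integral_sub i1 (i2.const_mul 2), integral_const_mul]
    have e2 : ∫ ω, (((u ω) ^ 2 - 2 * ((P[u|m]) ω * u ω)) + (P[u|m]) ω * (P[u|m]) ω) ∂P
        = ∫ ω, ((u ω) ^ 2 - 2 * ((P[u|m]) ω * u ω)) ∂P + ∫ ω, (P[u|m]) ω * (P[u|m]) ω ∂P :=
      integral_add (i1.sub (i2.const_mul 2)) i3
    rw [← e1, ← e2]
    refine integral_congr_ae (Filter.Eventually.of_forall fun ω => ?_)
    simp only
    ring
  have h4 : ∫ ω, ((P[u|m]) ω) ^ 2 ∂P = ∫ ω, (P[u|m]) ω * (P[u|m]) ω ∂P :=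
    integral_congr_ae (Filter.Eventually.of_forall fun ω => by simp only; ring)
  rw [h4]
  rw [h3, h1] at h2
  linarith

end Pool.Agent.H42.TS
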