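import Pool.Agent.H42.TS.Clt

/-!
# Reduction of a general state space to a standard Borel one

Helper file for the two-sided version of the CLT of MP_bedcbf_pr.
-/

set_option autoImplicit false

open MeasureTheory ProbabilityTheory Filter
open scoped ENNReal NNReal Topology

namespace Pool.Agent.H42.TS

/-! ### A countable family of sets closed under intersections and a countable family of maps -/

section Closure

variable {S : Type}

/-- one step of the closure -/
def nxt (G : ℤ → Set S → S → ℝ) (C : Set (Set S)) : Set (Set S) :=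
  C ∪ Set.image2 (fun A B => A ∩ B) C C ∪
    ⋃ n : ℤ, ⋃ q : ℚ, (fun A => {x | G n A x < (q : ℝ)}) '' C

/-- the closure -/
def cl (G : ℤ → Set S → S → ℝ) (C : Set (Set S)) : Set (Set S) := ⋃ k : ℕ, (nxt G)^[k] C

theorem nxt_countable (G : ℤ → Set S → S → ℝ) {C : Set (Set S)} (hC : C.Countable) :
    (nxt G C).Countable :=
  (hC.union (hC.image2 hC _)).union
    (Set.countable_iUnion fun _ => Set.countable_iUnion fun _ => hC.image _)

theorem iter_countable (G : ℤ → Set S → S → ℝ) {C : Set (Set S)} (hC : C.Countable) (k : ℕ) :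
    ((nxt G)^[k] C).Countable := by
  induction k with
  | zero => exact hC
  | succ k ih => rw [Function.iterate_succ_apply']; exact nxt_countable G ih

theorem cl_countable (G : ℤ → Set S → S → ℝ) {C : Set (Set S)} (hC : C.Countable) :
    (cl G C).Countable := Set.countable_iUnion fun k => iter_countable G hC k

theorem subset_nxt (G : ℤ → Set S → S → ℝ) (C : Set (Set S)) : C ⊆ nxt G C :=
  fun _ hA => Or.inl (Or.inl hA)

theorem iter_mono (G : ℤ → Set S → S → ℝ) (C : Set (Set S)) : Monotone fun k => (nxt G)^[k] C :=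
  monotone_nat_of_le_succ fun k => by
    rw [Function.iterate_succ_apply']
    exact subset_nxt G _

theorem subset_cl (G : ℤ → Set S → S → ℝ) (C : Set (Set S)) : C ⊆ cl G C :=
  fun _ hA => Set.mem_iUnion.2 ⟨0, hA⟩

theorem cl_inter (G : ℤ → Set S → S → ℝ) (C : Set (Set S)) {A B : Set S} (hA : A ∈ cl G C)
    (hB : B ∈ cl G C) : A ∩ B ∈ cl G C := by
  obtain ⟨i, hi⟩ := Set.mem_iUnion.1 hA
  obtain ⟨j, hj⟩ := Set.mem_iUnion.1 hB
  refine Set.mem_iUnion.2 ⟨max i j + 1, ?_⟩
  rw [Function.iterate_succ_apply']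
  exact Or.inl (Or.inr ⟨A, iter_mono G C (le_max_left i j) hi, B,
    iter_mono G C (le_max_right i j) hj, rfl⟩)

theorem cl_lt (G : ℤ → Set S → S → ℝ) (C : Set (Set S)) {A : Set S} (hA : A ∈ cl G C) (n : ℤ)
    (q : ℚ) : {x | G n A x < (q : ℝ)} ∈ cl G C := by
  obtain ⟨i, hi⟩ := Set.mem_iUnion.1 hA
  refine Set.mem_iUnion.2 ⟨i + 1, ?_⟩
  rw [Function.iterate_succ_apply']
  exact Or.inr (Set.mem_iUnion.2 ⟨n, Set.mem_iUnion.2 ⟨q, A, hi, rfl⟩⟩)

theorem cl_meas (G : ℤ → Set S → S → ℝ) (C : Set (Set S)) [mS : MeasurableSpace S]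
    (hG : ∀ n A, Measurable (G n A)) (hC : ∀ A ∈ C, MeasurableSet A) :
    ∀ A ∈ cl G C, MeasurableSet A := by
  have h : ∀ k : ℕ, ∀ A ∈ (nxt G)^[k] C, MeasurableSet A := by
    intro k
    induction k with
    | zero => exact hC
    | succ k ih =>
      intro A hA
      rw [Function.iterate_succ_apply'] at hA
      rcases hA with (hA | ⟨B, hB, D, hD, rfl⟩) | hA
      · exact ih A hA
      · exact (ih B hB).inter (ih D hD)
      · obtain ⟨n, hA⟩ := Set.mem_iUnion.1 hA
        obtain ⟨q, B, _, rfl⟩ := Set.mem_iUnion.1 hA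
        exact measurableSet_lt (hG n B) measurable_const
  intro A hA
  obtain ⟨k, hk⟩ := Set.mem_iUnion.1 hA
  exact h k A hk

end Closure

/-- measurability of a real function from the sets `{g < q}`, `q` rational -/
theorem measurable_of_rat {S : Type} {m : MeasurableSpace S} {g : S → ℝ}
    (h : ∀ q : ℚ, MeasurableSet {x | g x < (q : ℝ)}) : Measurable g := by
  have hb : (inferInstance : MeasurableSpace ℝ)
      = MeasurableSpace.generateFrom (⋃ a : ℚ, {Set.Iio (a : ℝ)}) := by
    rw [← Real.borel_eq_generateFrom_Iio_rat]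
    exact BorelSpace.measurable_eq
  refine Measurable.mono (mb := MeasurableSpace.generateFrom (⋃ a : ℚ, {Set.Iio (a : ℝ)}))
    (measurable_generateFrom ?_) le_rfl hb.le
  intro t ht
  obtain ⟨q, hq⟩ := Set.mem_iUnion.1 ht
  rw [Set.mem_singleton_iff] at hq
  subst hq
  exact h q

/-- The factor map into a Cantor cube. -/
noncomputable def fmap {S : Type} (C : Set (Set S)) : S → (C → Bool) := by
  classical
  exact fun x c => decide (x ∈ (c : Set S))

theorem comap_fmap {S : Type} (C : Set (Set S)) :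
    MeasurableSpace.comap (fmap C) inferInstance = MeasurableSpace.generateFrom C := by
  apply le_antisymm
  · rw [← measurable_iff_comap_le]
    refine @measurable_pi_lambda _ _ _ (MeasurableSpace.generateFrom C) _ _ fun c => ?_
    refine @measurable_to_bool _ (MeasurableSpace.generateFrom C) _ ?_
    have : (fun x => fmap C x c) ⁻¹' {true} = (c : Set S) := by
      ext x
      simp [fmap]
    rw [this]
    exact MeasurableSpace.measurableSet_generateFrom c.2
  · refine MeasurableSpace.generateFrom_le fun A hA => ?_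
    refine ⟨{p : C → Bool | p ⟨A, hA⟩ = true}, ?_, ?_⟩
    · have h : Measurable (fun p : C → Bool => p ⟨A, hA⟩) := measurable_pi_apply _
      exact h (measurableSet_singleton true)
    · ext x
      simp [fmap]

/-! ### The factor process -/

section Factor

variable {S : Type} {mS : MeasurableSpace S} {Ω : Type} {mΩ : MeasurableSpace Ω} {P : Measure Ω}
  {ξ : ℤ → Ω → S}

/-- Conditional probabilities given `ξ n` are functions of `ξ n`. -/
theorem exists_G (mS : MeasurableSpace S) (P : Measure Ω) (ξ : ℤ → Ω → S) :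
    ∃ G : ℤ → Set S → S → ℝ, (∀ n A, Measurable (G n A)) ∧ ∀ n A,
      P[(ξ (n + 1) ⁻¹' A).indicator (fun _ => (1 : ℝ))|mS.comap (ξ n)] = G n A ∘ ξ n := by
  have h : ∀ (n : ℤ) (A : Set S), ∃ g : S → ℝ, Measurable g ∧
      P[(ξ (n + 1) ⁻¹' A).indicator (fun _ => (1 : ℝ))|mS.comap (ξ n)] = g ∘ ξ n := fun n A =>
    (stronglyMeasurable_condExp (m := mS.comap (ξ n)) (μ := P)
      (f := (ξ (n + 1) ⁻¹' A).indicator (fun _ => (1 : ℝ)))).measurable.exists_eq_measurable_comp
  choose G hG hG2 using h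
  exact ⟨G, hG, hG2⟩

/-- The factor process is a stationary Markov process. -/
theorem factor_stat [IsProbabilityMeasure P] (H : Stat mS P ξ) {C : Set (Set S)}
    (hCm : ∀ A ∈ C, MeasurableSet A) (hpi : ∀ A ∈ C, ∀ B ∈ C, A ∩ B ∈ C)
    {G : ℤ → Set S → S → ℝ}
    (hG : ∀ n A, P[(ξ (n + 1) ⁻¹' A).indicator (fun _ => (1 : ℝ))|mS.comap (ξ n)] = G n A ∘ ξ n)
    (hCG : ∀ A ∈ C, ∀ (n : ℤ) (q : ℚ), {x | G n A x < (q : ℝ)} ∈ C) :
    Stat (inferInstance : MeasurableSpace (C → Bool)) P (fun n ω => fmap C (ξ n ω)) := by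
  have hle : MeasurableSpace.generateFrom C ≤ mS := MeasurableSpace.generateFrom_le hCm
  have hfm : @Measurable _ _ mS _ (fmap C) := by
    rw [measurable_iff_comap_le, comap_fmap]
    exact hle
  have hcomap : ∀ n : ℤ, MeasurableSpace.comap (fun ω => fmap C (ξ n ω)) inferInstance
      = (MeasurableSpace.generateFrom C).comap (ξ n) := by
    intro n
    rw [← comap_fmap, MeasurableSpace.comap_comp]
    rfl
  have hΦ : Measurable (fun (p : ℤ → S) (n : ℤ) => fmap C (p n)) :=
    measurable_pi_lambda _ fun n => hfm.comp (measurable_pi_apply n)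
  have hpath : Measurable (fun ω n => ξ n ω) := measurable_pi_lambda _ fun n => H.meas n
  refine ⟨fun n => hfm.comp (H.meas n), ?_, ?_⟩
  · have h1 : MeasurePreserving (fun (p : ℤ → S) (n : ℤ) => fmap C (p n)) (P.map fun ω n => ξ n ω)
        (P.map fun ω n => fmap C (ξ n ω)) :=
      ⟨hΦ, by rw [Measure.map_map hΦ hpath]; rfl⟩
    exact h1.of_semiconj H.pres (fun p => rfl) measurable_shf
  · intro n B hB
    have hA : MeasurableSet[MeasurableSpace.generateFrom C] (fmap C ⁻¹' B) := by
      rw [← comap_fmap]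
      exact ⟨B, hB, rfl⟩
    set A : Set S := fmap C ⁻¹' B with hAdef
    have hpre : ((fun ω => fmap C (ξ (n + 1) ω)) ⁻¹' B) = ξ (n + 1) ⁻¹' A := rfl
    have hpast : past (inferInstance : MeasurableSpace (C → Bool)) (fun n ω => fmap C (ξ n ω)) n
        = ⨆ i ≤ n, (MeasurableSpace.generateFrom C).comap (ξ i) := by
      simp only [past, hcomap]
    have hpastle : (⨆ i ≤ n, (MeasurableSpace.generateFrom C).comap (ξ i)) ≤ past mS ξ n :=
      iSup₂_mono fun i _ => MeasurableSpace.comap_mono hle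
    have hcle : (MeasurableSpace.generateFrom C).comap (ξ n) ≤
        ⨆ i ≤ n, (MeasurableSpace.generateFrom C).comap (ξ i) :=
      le_iSup₂_of_le (f := fun (i : ℤ) (_ : i ≤ n) =>
        (MeasurableSpace.generateFrom C).comap (ξ i)) n le_rfl le_rfl
    have hcle2 : (MeasurableSpace.generateFrom C).comap (ξ n) ≤ mS.comap (ξ n) :=
      MeasurableSpace.comap_mono hle
    rw [hpast, hcomap n, hpre]
    -- the generating sets
    have hgen : ∀ D ∈ C, P[(ξ (n + 1) ⁻¹' D).indicator (fun _ => (1 : ℝ))|past mS ξ n] =ᵐ[P]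
        P[(ξ (n + 1) ⁻¹' D).indicator (fun _ => (1 : ℝ))|
          (MeasurableSpace.generateFrom C).comap (ξ n)] := by
      intro D hD
      have h1 := H.markov n D (hCm D hD)
      have hGm : @Measurable _ _ (MeasurableSpace.generateFrom C) _ (G n D) :=
        measurable_of_rat fun q => MeasurableSpace.measurableSet_generateFrom (hCG D hD n q)
      have h2 : P[P[(ξ (n + 1) ⁻¹' D).indicator (fun _ => (1 : ℝ))|mS.comap (ξ n)]|
          (MeasurableSpace.generateFrom C).comap (ξ n)] =ᵐ[P]
          P[(ξ (n + 1) ⁻¹' D).indicator (fun _ => (1 : ℝ))|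
          (MeasurableSpace.generateFrom C).comap (ξ n)] :=
        condExp_condExp_of_le hcle2 (H.meas n).comap_le
      have h3 : P[P[(ξ (n + 1) ⁻¹' D).indicator (fun _ => (1 : ℝ))|mS.comap (ξ n)]|
          (MeasurableSpace.generateFrom C).comap (ξ n)]
          = P[(ξ (n + 1) ⁻¹' D).indicator (fun _ => (1 : ℝ))|mS.comap (ξ n)] := by
        refine condExp_of_stronglyMeasurable (hcle2.trans (H.meas n).comap_le) ?_
          integrable_condExp
        rw [hG n D]
        refine Measurable.stronglyMeasurable ?_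
        exact @Measurable.comp _ _ _ ((MeasurableSpace.generateFrom C).comap (ξ n))
          (MeasurableSpace.generateFrom C) _ _ _ hGm (comap_measurable _)
      rw [h3] at h2
      exact h1.trans h2
    have hall : P[(ξ (n + 1) ⁻¹' A).indicator (fun _ => (1 : ℝ))|past mS ξ n] =ᵐ[P]
        P[(ξ (n + 1) ⁻¹' A).indicator (fun _ => (1 : ℝ))|
          (MeasurableSpace.generateFrom C).comap (ξ n)] := by
      have h1 := @cond_fun Ω S (MeasurableSpace.generateFrom C)
        ((MeasurableSpace.generateFrom C).comap (ξ n)) (past mS ξ n) mΩ P _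
        (hcle.trans hpastle) (past_le H.meas n) (ξ (n + 1))
        ((H.meas (n + 1)).mono le_rfl hle) C
        (fun D hD => MeasurableSpace.measurableSet_generateFrom hD)
        (fun D hD E hE _ => hpi D hD E hE) rfl hgen (A.indicator (fun _ => (1 : ℝ)))
        (measurable_const.indicator hA)
        ((integrable_const (1 : ℝ)).indicator (H.meas (n + 1) (hle _ hA)))
      exact h1
    have h4 : P[P[(ξ (n + 1) ⁻¹' A).indicator (fun _ => (1 : ℝ))|past mS ξ n]|
        ⨆ i ≤ n, (MeasurableSpace.generateFrom C).comap (ξ i)] =ᵐ[P]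
        P[(ξ (n + 1) ⁻¹' A).indicator (fun _ => (1 : ℝ))|
        ⨆ i ≤ n, (MeasurableSpace.generateFrom C).comap (ξ i)] :=
      condExp_condExp_of_le hpastle (past_le H.meas n)
    have h5 := condExp_congr_ae (m := ⨆ i ≤ n, (MeasurableSpace.generateFrom C).comap (ξ i)) hall
    have h6 : P[P[(ξ (n + 1) ⁻¹' A).indicator (fun _ => (1 : ℝ))|
          (MeasurableSpace.generateFrom C).comap (ξ n)]|
        ⨆ i ≤ n, (MeasurableSpace.generateFrom C).comap (ξ i)]
        = P[(ξ (n + 1) ⁻¹' A).indicator (fun _ => (1 : ℝ))|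
          (MeasurableSpace.generateFrom C).comap (ξ n)] :=
      condExp_of_stronglyMeasurable (hpastle.trans (past_le H.meas n))
        (stronglyMeasurable_condExp.mono hcle) integrable_condExp
    rw [h6] at h5
    exact h4.symm.trans h5

/-- The CLT for a general measurable state space. -/
theorem clt_gen [IsProbabilityMeasure P] (H : Stat mS P ξ)
    (he : Ergodic (shf : (ℤ → S) → (ℤ → S)) (P.map fun ω n => ξ n ω))
    {f : S → ℝ} (hf : Measurable f) (hf2 : MemLp (fun ω => f (ξ 0 ω)) 2 P)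
    (hfwd : Summable fun k : ℕ =>
      ∫ ω, (P[fun ω => f (ξ ((k : ℤ) + 1) ω)|mS.comap (ξ 0)] ω) ^ 2 ∂P)
    (hbwd : Summable fun k : ℕ =>
      ∫ ω, (P[fun ω => f (ξ (-((k : ℤ) + 1)) ω)|mS.comap (ξ 0)] ω) ^ 2 ∂P) :
    ∃ v : NNReal, HasSum (fun k : ℕ => 2 * ∫ ω, f (ξ 0 ω) * f (ξ ((k : ℤ) + 1) ω) ∂P)
        ((v : ℝ) - ∫ ω, (f (ξ 0 ω)) ^ 2 ∂P) ∧ ∀ g : ℝ → ℝ, Continuous g → (∃ C : ℝ, ∀ x, |g x| ≤ C) →
      Tendsto (fun n : ℕ => ∫ ω, g ((Real.sqrt n)⁻¹ * ∑ i ∈ Finset.Icc 1 n, f (ξ (i : ℤ) ω)) ∂P)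
        atTop (𝓝 (∫ x, g x ∂(gaussianReal 0 v))) := by
  obtain ⟨G, hGm, hG⟩ := exists_G mS P ξ
  set C0 : Set (Set S) := Set.range fun q : ℚ => {x | f x < (q : ℝ)} with hC0
  set C : Set (Set S) := cl G C0 with hC
  have hCc : C.Countable := cl_countable G (Set.countable_range _)
  have hC0m : ∀ A ∈ C0, MeasurableSet A := by
    rintro A ⟨q, rfl⟩
    exact measurableSet_lt hf measurable_const
  have hCm : ∀ A ∈ C, MeasurableSet A := cl_meas G C0 hGm hC0m
  have : Countable C := hCc.to_subtype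
  have hle : MeasurableSpace.generateFrom C ≤ mS := MeasurableSpace.generateFrom_le hCm
  have hfm : @Measurable _ _ mS _ (fmap C) := by
    rw [measurable_iff_comap_le, comap_fmap]
    exact hle
  have hfC : @Measurable _ _ (MeasurableSpace.generateFrom C) _ f :=
    measurable_of_rat fun q => MeasurableSpace.measurableSet_generateFrom
      (subset_cl G C0 ⟨q, rfl⟩)
  rw [← comap_fmap] at hfC
  obtain ⟨F, hFm, hF⟩ := hfC.exists_eq_measurable_comp
  have HF := factor_stat H hCm (fun A hA B hB => cl_inter G C0 hA hB) hG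
    (fun A hA n q => cl_lt G C0 hA n q)
  have hΦ : Measurable (fun (p : ℤ → S) (n : ℤ) => fmap C (p n)) :=
    measurable_pi_lambda _ fun n => hfm.comp (measurable_pi_apply n)
  have hpath : Measurable (fun ω n => ξ n ω) := measurable_pi_lambda _ fun n => H.meas n
  have heF : Ergodic (shf : (ℤ → (C → Bool)) → (ℤ → (C → Bool)))
      (P.map fun ω n => fmap C (ξ n ω)) := by
    have h1 : MeasurePreserving (fun (p : ℤ → S) (n : ℤ) => fmap C (p n)) (P.map fun ω n => ξ n ω)
        (P.map fun ω n => fmap C (ξ n ω)) :=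
      ⟨hΦ, by rw [Measure.map_map hΦ hpath]; rfl⟩
    exact h1.ergodic_of_ergodic_semiconj he measurable_shf (fun p => rfl)
  have hFf : ∀ x, F (fmap C x) = f x := fun x => by rw [hF]; rfl
  have hcle : MeasurableSpace.comap (fun ω => fmap C (ξ 0 ω)) inferInstance ≤ mS.comap (ξ 0) := by
    have : MeasurableSpace.comap (fun ω => fmap C (ξ 0 ω)) inferInstance
        = (MeasurableSpace.generateFrom C).comap (ξ 0) := by
      rw [← comap_fmap, MeasurableSpace.comap_comp]
      rfl
    rw [this]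
    exact MeasurableSpace.comap_mono hle
  have hf2n : ∀ n, MemLp (fun ω => f (ξ n ω)) 2 P := H.memLp_n hf hf2
  have hcontr : ∀ n : ℤ, ∫ ω, (P[fun ω => f (ξ n ω)|
      MeasurableSpace.comap (fun ω => fmap C (ξ 0 ω)) inferInstance] ω) ^ 2 ∂P
      ≤ ∫ ω, (P[fun ω => f (ξ n ω)|mS.comap (ξ 0)] ω) ^ 2 ∂P := by
    intro n
    have h1 := condExp_condExp_of_le (μ := P) (f := fun ω => f (ξ n ω)) hcle (H.meas 0).comap_le
    have h2 := condExp_sq_le (P := P) (hcle.trans (H.meas 0).comap_le)
      ((hf2n n).condExp (m := mS.comap (ξ 0)) (by norm_num))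
    refine le_trans (le_of_eq ?_) h2
    refine integral_congr_ae ?_
    filter_upwards [h1] with ω hω
    rw [hω]
  have hmain := HF.clt_std heF (f := F) hFm (by simpa only [hFf] using hf2)
    (by
      simp only [hFf]
      exact Summable.of_nonneg_of_le (fun k => integral_nonneg fun ω => sq_nonneg _)
        (fun k => hcontr _) hfwd)
    (by
      simp only [hFf]
      exact Summable.of_nonneg_of_le (fun k => integral_nonneg fun ω => sq_nonneg _)
        (fun k => hcontr _) hbwd)
  simpa only [hFf] using hmain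

end Factor

end Pool.Agent.H42.TS
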