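import Pool.Agent.H42.TS.Cond
import Pool.Agent.H45.CLT.Main

/-!
# Two-sided stationary Markov processes with values in a standard Borel space

Helper file for the two-sided version of the CLT of MP_bedcbf_pr.
-/

set_option autoImplicit false

open MeasureTheory ProbabilityTheory Filter
open scoped ENNReal NNReal Topology

namespace Pool.Agent.H42.TS

variable {S : Type} {mS : MeasurableSpace S} {Ω : Type} {mΩ : MeasurableSpace Ω} {P : Measure Ω}
  [IsProbabilityMeasure P] {ξ : ℤ → Ω → S}

/-- The shift on two-sided sequences. -/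
def shf (p : ℤ → S) : ℤ → S := fun n => p (n + 1)

theorem measurable_shf : Measurable (shf : (ℤ → S) → (ℤ → S)) :=
  measurable_pi_lambda _ fun n => measurable_pi_apply (n + 1)

omit [IsProbabilityMeasure P] in
theorem law_shift (hξ : ∀ n, Measurable (ξ n))
    (hs : MeasurePreserving (shf : (ℤ → S) → (ℤ → S)) (P.map fun ω n => ξ n ω)
      (P.map fun ω n => ξ n ω)) (n : ℤ) :
    P.map (fun ω k => ξ (n + k) ω) = P.map (fun ω k => ξ k ω) := by
  have hm : ∀ n : ℤ, Measurable (fun ω k => ξ (n + k) ω) := fun n =>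
    measurable_pi_lambda _ fun k => hξ (n + k)
  have hm0 : Measurable (fun ω k => ξ k ω) := measurable_pi_lambda _ fun k => hξ k
  have hstep : ∀ n : ℤ, (P.map (fun ω k => ξ (n + k) ω)).map (shf : (ℤ → S) → (ℤ → S))
      = P.map (fun ω k => ξ (n + 1 + k) ω) := by
    intro n
    rw [Measure.map_map measurable_shf (hm n)]
    congr 1
    funext ω k
    simp only [Function.comp_apply, shf]
    congr 1
    ring
  have hu : Measurable (fun p : ℤ → S => fun n => p (n - 1)) :=
    measurable_pi_lambda _ fun n => measurable_pi_apply (n - 1)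
  have hinv : ∀ μ : Measure (ℤ → S), (μ.map (shf : (ℤ → S) → (ℤ → S))).map
      (fun p : ℤ → S => fun n => p (n - 1)) = μ := by
    intro μ
    rw [Measure.map_map hu measurable_shf]
    have : ((fun p : ℤ → S => fun n => p (n - 1)) ∘ (shf : (ℤ → S) → (ℤ → S))) = id := by
      funext p k
      simp [shf]
    rw [this, Measure.map_id]
  induction n using Int.induction_on with
  | zero => simp
  | succ i ih =>
    rw [← hstep, ih]
    exact hs.map_eq
  | pred i ih =>
    have h1 := hstep (-(i : ℤ) - 1)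
    rw [show -(i : ℤ) - 1 + 1 = -(i : ℤ) by ring, ih] at h1
    rw [← hinv (P.map (fun ω k => ξ (-(i : ℤ) - 1 + k) ω)), h1]
    conv_lhs => rw [← hs.map_eq]
    exact hinv _

omit [IsProbabilityMeasure P] in
theorem pair_law (hξ : ∀ n, Measurable (ξ n))
    (hs : MeasurePreserving (shf : (ℤ → S) → (ℤ → S)) (P.map fun ω n => ξ n ω)
      (P.map fun ω n => ξ n ω)) (n i j : ℤ) :
    P.map (fun ω => (ξ (n + i) ω, ξ (n + j) ω)) = P.map (fun ω => (ξ i ω, ξ j ω)) := by
  have h := congrArg (Measure.map (fun p : ℤ → S => (p i, p j))) (law_shift hξ hs n)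
  have hp : Measurable (fun p : ℤ → S => (p i, p j)) :=
    (measurable_pi_apply i).prodMk (measurable_pi_apply j)
  rw [Measure.map_map hp (measurable_pi_lambda _ fun k => hξ (n + k)),
    Measure.map_map hp (measurable_pi_lambda _ fun k => hξ k)] at h
  exact h

omit [IsProbabilityMeasure P] in
theorem one_law (hξ : ∀ n, Measurable (ξ n))
    (hs : MeasurePreserving (shf : (ℤ → S) → (ℤ → S)) (P.map fun ω n => ξ n ω)
      (P.map fun ω n => ξ n ω)) (n : ℤ) :
    P.map (ξ n) = P.map (ξ 0) := by
  have h := congrArg (Measure.map Prod.fst) (pair_law hξ hs n 0 0)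
  rw [Measure.map_map measurable_fst ((hξ _).prodMk (hξ _)),
    Measure.map_map measurable_fst ((hξ _).prodMk (hξ _))] at h
  have e1 : (Prod.fst ∘ fun ω => (ξ (n + 0) ω, ξ (n + 0) ω)) = ξ n := by
    funext ω; simp
  have e2 : (Prod.fst ∘ fun ω => (ξ 0 ω, ξ 0 ω)) = ξ 0 := by
    funext ω; simp
  rw [e1, e2] at h
  exact h

/-- The past of the process up to time `n`. -/
@[reducible] def past (mS : MeasurableSpace S) (ξ : ℤ → Ω → S) (n : ℤ) : MeasurableSpace Ω :=
  ⨆ i ≤ n, mS.comap (ξ i)

theorem past_le (hξ : ∀ n, Measurable (ξ n)) (n : ℤ) : past mS ξ n ≤ mΩ :=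
  iSup₂_le fun i _ => (hξ i).comap_le

theorem comap_le_past {i n : ℤ} (h : i ≤ n) : mS.comap (ξ i) ≤ past mS ξ n :=
  le_iSup₂_of_le i h le_rfl

theorem past_mono {m n : ℤ} (h : m ≤ n) : past mS ξ m ≤ past mS ξ n :=
  iSup₂_le fun _ hi => comap_le_past (hi.trans h)

end Pool.Agent.H42.TS
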