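import Pool.Agent.H42.TS.Proc

/-!
# The CLT for two-sided stationary Markov processes: standard Borel state space

Helper file for the two-sided version of the CLT of MP_bedcbf_pr.
-/

set_option autoImplicit false

open MeasureTheory ProbabilityTheory Filter
open scoped ENNReal NNReal Topology

namespace Pool.Agent.H42.TS

variable {S : Type} {mS : MeasurableSpace S} {Ω : Type} {mΩ : MeasurableSpace Ω} {P : Measure Ω}
  {ξ : ℤ → Ω → S}

/-- A two-sided stationary Markov process. -/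
structure Stat (mS : MeasurableSpace S) (P : Measure Ω) (ξ : ℤ → Ω → S) : Prop where
  meas : ∀ n, Measurable (ξ n)
  pres : MeasurePreserving (shf : (ℤ → S) → (ℤ → S)) (P.map fun ω n => ξ n ω)
    (P.map fun ω n => ξ n ω)
  markov : ∀ (n : ℤ) (A : Set S), MeasurableSet A →
    P[(ξ (n + 1) ⁻¹' A).indicator (fun _ => (1 : ℝ))|past mS ξ n] =ᵐ[P]
      P[(ξ (n + 1) ⁻¹' A).indicator (fun _ => (1 : ℝ))|mS.comap (ξ n)]

namespace Stat

theorem integrable_n (H : Stat mS P ξ) {h : S → ℝ} (hh : Measurable h)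
    (hi : Integrable (fun ω => h (ξ 0 ω)) P) (n : ℤ) : Integrable (fun ω => h (ξ n ω)) P := by
  have h1 : Integrable h (P.map (ξ 0)) :=
    (integrable_map_measure hh.aestronglyMeasurable (H.meas 0).aemeasurable).2 hi
  rw [← one_law H.meas H.pres n] at h1
  exact (integrable_map_measure hh.aestronglyMeasurable (H.meas n).aemeasurable).1 h1

theorem markov_fun [IsProbabilityMeasure P] (H : Stat mS P ξ) {h : S → ℝ} (hh : Measurable h)
    (hi : Integrable (fun ω => h (ξ 0 ω)) P) (n : ℤ) :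
    P[fun ω => h (ξ (n + 1) ω)|past mS ξ n] =ᵐ[P] P[fun ω => h (ξ (n + 1) ω)|mS.comap (ξ n)] :=
  cond_fun (comap_le_past le_rfl) (past_le H.meas n) (H.meas (n + 1)) {A | MeasurableSet A}
    (fun _ hA => hA) (MeasurableSpace.isPiSystem_measurableSet)
    (MeasurableSpace.generateFrom_measurableSet).symm
    (fun A hA => H.markov n A hA) hh (H.integrable_n hh hi (n + 1))

variable [StandardBorelSpace S] [Nonempty S] [IsProbabilityMeasure P]

/-- The transition operator of the kernel. -/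
noncomputable def T (Q : Kernel S S) (h : S → ℝ) : S → ℝ := fun y => ∫ z, h z ∂(Q y)

omit [StandardBorelSpace S] [Nonempty S] in
theorem measurable_T {Q : Kernel S S} {h : S → ℝ} (hh : Measurable h) : Measurable (T Q h) :=
  (hh.stronglyMeasurable.integral_kernel (κ := Q)).measurable

theorem condDistrib_eq (H : Stat mS P ξ) (n : ℤ) :
    condDistrib (ξ (n + 1)) (ξ n) P = condDistrib (ξ 1) (ξ 0) P := by
  have h := pair_law H.meas H.pres n 0 1
  rw [add_zero] at h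
  rw [condDistrib, condDistrib]
  congr 1

theorem step (H : Stat mS P ξ) {h : S → ℝ} (hh : Measurable h)
    (hi : Integrable (fun ω => h (ξ 0 ω)) P) (n : ℤ) :
    P[fun ω => h (ξ (n + 1) ω)|past mS ξ n] =ᵐ[P]
      fun ω => T (condDistrib (ξ 1) (ξ 0) P) h (ξ n ω) := by
  refine (H.markov_fun hh hi n).trans ?_
  have h1 := condExp_ae_eq_integral_condDistrib (μ := P) (H.meas n) (H.meas (n + 1)).aemeasurable
    hh.stronglyMeasurable (H.integrable_n hh hi (n + 1))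
  rw [H.condDistrib_eq n] at h1
  exact h1

theorem integrable_T (H : Stat mS P ξ) {h : S → ℝ} (hh : Measurable h)
    (hi : Integrable (fun ω => h (ξ 0 ω)) P) :
    Integrable (fun ω => T (condDistrib (ξ 1) (ξ 0) P) h (ξ 0 ω)) P :=
  integrable_condExp.congr (H.step hh hi 0)

theorem iter (H : Stat mS P ξ) (k : ℕ) : ∀ {h : S → ℝ}, Measurable h →
    Integrable (fun ω => h (ξ 0 ω)) P → ∀ n : ℤ,
    P[fun ω => h (ξ (n + k) ω)|past mS ξ n] =ᵐ[P]
      fun ω => ((T (condDistrib (ξ 1) (ξ 0) P))^[k] h) (ξ n ω) := by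
  induction k with
  | zero =>
    intro h hh hi n
    have hm : StronglyMeasurable[past mS ξ n] (fun ω => h (ξ n ω)) :=
      ((hh.stronglyMeasurable.comp_measurable (comap_measurable (ξ n))).mono
        (comap_le_past le_rfl))
    have := condExp_of_stronglyMeasurable (μ := P) (past_le H.meas n) hm (H.integrable_n hh hi n)
    simp only [Nat.cast_zero, add_zero, Function.iterate_zero, id_eq]
    rw [this]
  | succ k ih =>
    intro h hh hi n
    have h1 := condExp_condExp_of_le (μ := P) (f := fun ω => h (ξ (n + k + 1) ω))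
      (past_mono (mS := mS) (ξ := ξ) (show n ≤ n + k by omega)) (past_le H.meas (n + k))
    have h2 := H.step hh hi (n + k)
    have h3 := ih (measurable_T hh) (H.integrable_T hh hi) n
    have h4 : P[P[fun ω => h (ξ (n + k + 1) ω)|past mS ξ (n + k)]|past mS ξ n] =ᵐ[P]
        P[fun ω => T (condDistrib (ξ 1) (ξ 0) P) h (ξ (n + k) ω)|past mS ξ n] :=
      condExp_congr_ae h2
    rw [Function.iterate_succ, Function.comp_apply]
    rw [show (n + ((k + 1 : ℕ) : ℤ)) = n + k + 1 by push_cast; ring]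
    exact (h1.symm.trans h4).trans h3

omit [StandardBorelSpace S] [Nonempty S] in
theorem measurable_iter {Q : Kernel S S} (k : ℕ) : ∀ {h : S → ℝ}, Measurable h →
    Measurable ((T Q)^[k] h) := by
  induction k with
  | zero => intro h hh; exact hh
  | succ k ih =>
    intro h hh
    rw [Function.iterate_succ, Function.comp_apply]
    exact ih (measurable_T hh)

theorem integrable_iter (H : Stat mS P ξ) (k : ℕ) {h : S → ℝ} (hh : Measurable h)
    (hi : Integrable (fun ω => h (ξ 0 ω)) P) :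
    Integrable (fun ω => ((T (condDistrib (ξ 1) (ξ 0) P))^[k] h) (ξ 0 ω)) P :=
  integrable_condExp.congr (H.iter k hh hi 0)

/-- `E[h(ξ_k) | ξ_0] = (T^k h)(ξ_0)`. -/
theorem iter_zero (H : Stat mS P ξ) (k : ℕ) {h : S → ℝ} (hh : Measurable h)
    (hi : Integrable (fun ω => h (ξ 0 ω)) P) :
    P[fun ω => h (ξ k ω)|mS.comap (ξ 0)] =ᵐ[P]
      fun ω => ((T (condDistrib (ξ 1) (ξ 0) P))^[k] h) (ξ 0 ω) := by
  have h1 := condExp_condExp_of_le (μ := P) (f := fun ω => h (ξ (0 + k) ω))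
      (comap_le_past (mS := mS) (ξ := ξ) (le_refl (0 : ℤ))) (past_le H.meas 0)
  have h2 : P[P[fun ω => h (ξ (0 + k) ω)|past mS ξ 0]|mS.comap (ξ 0)] =ᵐ[P]
      P[fun ω => ((T (condDistrib (ξ 1) (ξ 0) P))^[k] h) (ξ 0 ω)|mS.comap (ξ 0)] :=
    condExp_congr_ae (H.iter k hh hi 0)
  have h3 : P[fun ω => ((T (condDistrib (ξ 1) (ξ 0) P))^[k] h) (ξ 0 ω)|mS.comap (ξ 0)]
      = fun ω => ((T (condDistrib (ξ 1) (ξ 0) P))^[k] h) (ξ 0 ω) :=
    condExp_of_stronglyMeasurable (H.meas 0).comap_le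
      ((measurable_iter k hh).stronglyMeasurable.comp_measurable (comap_measurable (ξ 0)))
      (H.integrable_iter k hh hi)
  rw [h3] at h2
  simp only [zero_add] at h1 h2
  exact h1.symm.trans h2

/-- an invariant set of the kernel is trivial if the shift is ergodic -/
theorem ergodic_set (H : Stat mS P ξ)
    (he : Ergodic (shf : (ℤ → S) → (ℤ → S)) (P.map fun ω n => ξ n ω)) {A : Set S}
    (hA : MeasurableSet A)
    (hinv : ∀ᵐ x ∂(P.map (ξ 0)), condDistrib (ξ 1) (ξ 0) P x A = A.indicator (fun _ => (1 : ℝ≥0∞)) x) :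
    P.map (ξ 0) A = 0 ∨ P.map (ξ 0) A = 1 := by
  have hm : Measurable (fun ω n => ξ n ω) := measurable_pi_lambda _ fun n => H.meas n
  have : IsProbabilityMeasure (P.map fun ω n => ξ n ω) :=
    Measure.isProbabilityMeasure_map hm.aemeasurable
  have h0 : P (ξ 0 ⁻¹' A ∩ ξ 1 ⁻¹' Aᶜ) = 0 := by
    rw [← setLIntegral_preimage_condDistrib (H.meas 0) (H.meas 1).aemeasurable hA.compl hA]
    have h1 : ∀ᵐ ω ∂P, condDistrib (ξ 1) (ξ 0) P (ξ 0 ω) A
        = A.indicator (fun _ => (1 : ℝ≥0∞)) (ξ 0 ω) := ae_of_ae_map (H.meas 0).aemeasurable hinv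
    rw [← lintegral_indicator ((H.meas 0) hA)]
    rw [← lintegral_zero (μ := P)]
    refine lintegral_congr_ae ?_
    filter_upwards [h1] with ω hω
    by_cases hx : ξ 0 ω ∈ A
    · rw [Set.indicator_of_mem (show ω ∈ ξ 0 ⁻¹' A from hx), prob_compl_eq_one_sub hA, hω,
        Set.indicator_of_mem hx, tsub_self]
    · rw [Set.indicator_of_notMem (show ω ∉ ξ 0 ⁻¹' A from hx)]
  have hB : MeasurableSet {p : ℤ → S | p 0 ∈ A} := measurable_pi_apply 0 hA
  have hle : {p : ℤ → S | p 0 ∈ A} ≤ᵐ[P.map fun ω n => ξ n ω] shf ⁻¹' {p : ℤ → S | p 0 ∈ A} := by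
    rw [ae_le_set, Measure.map_apply hm (hB.diff (measurable_shf hB))]
    refine le_antisymm ((measure_mono fun ω hω => ?_).trans h0.le) zero_le
    refine ⟨hω.1, ?_⟩
    have := hω.2
    simpa [shf] using this
  have hνA : P.map (ξ 0) A = (P.map fun ω n => ξ n ω) {p : ℤ → S | p 0 ∈ A} := by
    rw [Measure.map_apply (H.meas 0) hA, Measure.map_apply hm hB]
    rfl
  rw [hνA]
  rcases he.ae_empty_or_univ_of_ae_le_preimage' hB.nullMeasurableSet hle (measure_ne_top _ _) with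
    h | h
  · left
    rw [measure_congr h, measure_empty]
  · right
    rw [measure_congr h, measure_univ]

omit [StandardBorelSpace S] [Nonempty S] [IsProbabilityMeasure P] in
theorem memLp_n (H : Stat mS P ξ) {f : S → ℝ} (hf : Measurable f)
    (hf2 : MemLp (fun ω => f (ξ 0 ω)) 2 P) (n : ℤ) : MemLp (fun ω => f (ξ n ω)) 2 P := by
  have h1 : MemLp f 2 (P.map (ξ 0)) :=
    (memLp_map_measure_iff hf.aestronglyMeasurable (H.meas 0).aemeasurable).2 hf2
  rw [← one_law H.meas H.pres n] at h1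
  exact (memLp_map_measure_iff hf.aestronglyMeasurable (H.meas n).aemeasurable).1 h1

/-- covariances in terms of the kernel -/
theorem cov_eq (H : Stat mS P ξ) (k : ℕ) {f g : S → ℝ} (hf : Measurable f)
    (hf2 : MemLp (fun ω => f (ξ 0 ω)) 2 P) (hg : Measurable g)
    (hg2 : MemLp (fun ω => g (ξ 0 ω)) 2 P) :
    ∫ x, f x * ((T (condDistrib (ξ 1) (ξ 0) P))^[k] g) x ∂(P.map (ξ 0))
      = ∫ ω, f (ξ 0 ω) * g (ξ k ω) ∂P := by
  set G : S → ℝ := (T (condDistrib (ξ 1) (ξ 0) P))^[k] g with hG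
  have hGm : Measurable G := measurable_iter k hg
  have e1 : ∫ x, f x * G x ∂(P.map (ξ 0)) = ∫ ω, f (ξ 0 ω) * G (ξ 0 ω) ∂P :=
    integral_map (H.meas 0).aemeasurable (hf.mul hGm).aestronglyMeasurable
  have hfm : StronglyMeasurable[mS.comap (ξ 0)] (fun ω => f (ξ 0 ω)) :=
    hf.stronglyMeasurable.comp_measurable (comap_measurable (ξ 0))
  have h1 := condExp_mul_of_stronglyMeasurable_left (μ := P) (m := mS.comap (ξ 0)) hfm
    (g := fun ω => g (ξ k ω)) (hf2.integrable_mul (H.memLp_n hg hg2 k))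
    ((H.memLp_n hg hg2 k).integrable (by norm_num))
  have h2 : ∫ ω, (P[(fun ω => f (ξ 0 ω)) * (fun ω => g (ξ k ω))|mS.comap (ξ 0)]) ω ∂P
      = ∫ ω, ((fun ω => f (ξ 0 ω)) * (fun ω => g (ξ k ω))) ω ∂P :=
    integral_condExp (H.meas 0).comap_le
  have h3 : ∫ ω, f (ξ 0 ω) * g (ξ k ω) ∂P
      = ∫ ω, ((fun ω => f (ξ 0 ω)) * (fun ω => g (ξ k ω))) ω ∂P := rfl
  rw [e1, h3, ← h2]
  refine integral_congr_ae ?_
  filter_upwards [h1, H.iter_zero k hg (hg2.integrable (by norm_num))] with ω hω hω2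
  rw [hω, Pi.mul_apply, hω2]

/-- the backward estimate -/
theorem bwd (H : Stat mS P ξ) (k : ℕ) {f g : S → ℝ} (hf : Measurable f)
    (hf2 : MemLp (fun ω => f (ξ 0 ω)) 2 P) (hg : Measurable g) (hgb : ∃ C : ℝ, ∀ x, |g x| ≤ C)
    (hg1 : ∫ x, g x ^ 2 ∂(P.map (ξ 0)) ≤ 1) :
    (∫ x, f x * ((T (condDistrib (ξ 1) (ξ 0) P))^[k] g) x ∂(P.map (ξ 0))) ^ 2 ≤
      ∫ ω, (P[fun ω => f (ξ (-(k : ℤ)) ω)|mS.comap (ξ 0)] ω) ^ 2 ∂P := by
  obtain ⟨C, hC⟩ := hgb
  have hg2 : ∀ n, MemLp (fun ω => g (ξ n ω)) 2 P := fun n =>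
    (memLp_top_of_bound (hg.comp (H.meas n)).aestronglyMeasurable C
      (Filter.Eventually.of_forall fun ω => by simpa using hC (ξ n ω))).mono_exponent le_top
  have hf2n : ∀ n, MemLp (fun ω => f (ξ n ω)) 2 P := H.memLp_n hf hf2
  rw [H.cov_eq k hf hf2 hg (hg2 0)]
  have e3 : ∫ ω, f (ξ 0 ω) * g (ξ k ω) ∂P = ∫ ω, f (ξ (-(k : ℤ)) ω) * g (ξ 0 ω) ∂P := by
    have hp := pair_law H.meas H.pres (-(k : ℤ)) 0 k
    have hm : AEStronglyMeasurable (fun p : S × S => f p.1 * g p.2)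
        (P.map (fun ω => (ξ 0 ω, ξ k ω))) :=
      ((hf.comp measurable_fst).mul (hg.comp measurable_snd)).aestronglyMeasurable
    have i1 := integral_map (μ := P) ((H.meas 0).prodMk (H.meas k)).aemeasurable hm
    rw [← hp] at hm
    have i2 := integral_map (μ := P)
      ((H.meas (-(k : ℤ) + 0)).prodMk (H.meas (-(k : ℤ) + k))).aemeasurable hm
    rw [← hp, i2] at i1
    simp only [add_zero, neg_add_cancel] at i1
    exact i1.symm
  have e4 : ∫ ω, f (ξ (-(k : ℤ)) ω) * g (ξ 0 ω) ∂P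
      = ∫ ω, (P[fun ω => f (ξ (-(k : ℤ)) ω)|mS.comap (ξ 0)]) ω * g (ξ 0 ω) ∂P := by
    have hgm : StronglyMeasurable[mS.comap (ξ 0)] (fun ω => g (ξ 0 ω)) :=
      hg.stronglyMeasurable.comp_measurable (comap_measurable (ξ 0))
    have h1 := condExp_mul_of_stronglyMeasurable_right (μ := P) (m := mS.comap (ξ 0)) hgm
      (f := fun ω => f (ξ (-(k : ℤ)) ω)) ((hf2n _).integrable_mul (hg2 0))
      ((hf2n _).integrable (by norm_num))
    have h2 : ∫ ω, (P[(fun ω => f (ξ (-(k : ℤ)) ω)) * (fun ω => g (ξ 0 ω))|mS.comap (ξ 0)]) ω ∂P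
        = ∫ ω, ((fun ω => f (ξ (-(k : ℤ)) ω)) * (fun ω => g (ξ 0 ω))) ω ∂P :=
      integral_condExp (H.meas 0).comap_le
    have h3 : ∫ ω, f (ξ (-(k : ℤ)) ω) * g (ξ 0 ω) ∂P
        = ∫ ω, ((fun ω => f (ξ (-(k : ℤ)) ω)) * (fun ω => g (ξ 0 ω))) ω ∂P := rfl
    rw [h3, ← h2]
    exact integral_congr_ae h1
  have hc : MemLp (P[fun ω => f (ξ (-(k : ℤ)) ω)|mS.comap (ξ 0)]) 2 P :=
    (hf2n _).condExp (by norm_num)
  have hcs := H45.CLT.L2.cs_abs hc (hg2 0)
  have hg1' : ∫ ω, (g (ξ 0 ω)) ^ 2 ∂P ≤ 1 := by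
    rw [integral_map (H.meas 0).aemeasurable (hg.pow_const 2).aestronglyMeasurable] at hg1
    exact hg1
  rw [e3, e4, ← sq_abs]
  have hA0 : 0 ≤ ∫ ω, (P[fun ω => f (ξ (-(k : ℤ)) ω)|mS.comap (ξ 0)] ω) ^ 2 ∂P :=
    integral_nonneg fun ω => sq_nonneg _
  have hs1 : Real.sqrt (∫ ω, (g (ξ 0 ω)) ^ 2 ∂P) ≤ 1 := by
    rw [show (1 : ℝ) = Real.sqrt 1 by simp]
    exact Real.sqrt_le_sqrt hg1'
  calc |∫ ω, (P[fun ω => f (ξ (-(k : ℤ)) ω)|mS.comap (ξ 0)]) ω * g (ξ 0 ω) ∂P| ^ 2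
      ≤ (Real.sqrt (∫ ω, (P[fun ω => f (ξ (-(k : ℤ)) ω)|mS.comap (ξ 0)] ω) ^ 2 ∂P)
          * Real.sqrt (∫ ω, (g (ξ 0 ω)) ^ 2 ∂P)) ^ 2 := by
        exact pow_le_pow_left₀ (abs_nonneg _) hcs 2
    _ ≤ (Real.sqrt (∫ ω, (P[fun ω => f (ξ (-(k : ℤ)) ω)|mS.comap (ξ 0)] ω) ^ 2 ∂P) * 1) ^ 2 := by
        refine pow_le_pow_left₀ (by positivity) ?_ 2
        exact mul_le_mul_of_nonneg_left hs1 (Real.sqrt_nonneg _)
    _ = _ := by rw [mul_one, Real.sq_sqrt hA0]

end Stat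

end Pool.Agent.H42.TS
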