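import Pool.Agent.H42.TS.Std

/-!
# The CLT of H45 with its variance, and the variance of the partial sums

Helper file for the two-sided version of the CLT of MP_bedcbf_pr.
-/

set_option autoImplicit false

open MeasureTheory ProbabilityTheory Filter
open scoped ENNReal NNReal Topology

namespace Pool.Agent.H42.TS

open Pool.Agent.H45.CLT

/-- `H45.CLT.clt_chain` with the variance made explicit. -/
theorem clt_chain' {S : Type} [MeasurableSpace S] (N : Model S) (hN : N.toChain.Erg)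
    (f : S → ℝ) (hf : Measurable f) (hfe : N.f =ᵐ[N.ν] f) (v : NNReal) (hv : (v : ℝ) = N.σ2) :
    ∀ g : ℝ → ℝ, Continuous g → (∃ C : ℝ, ∀ x, |g x| ≤ C) →
      Filter.Tendsto
        (fun n : ℕ => ∫ ξ, g ((Real.sqrt n)⁻¹ * ∑ i ∈ Finset.range n, f (ξ i)) ∂N.P)
        Filter.atTop (nhds (∫ x, g x ∂(gaussianReal 0 v))) := by
  -- partial sums
  have hSm : ∀ n : ℕ, Measurable (fun ξ : ℕ → S =>
      (Real.sqrt n)⁻¹ * ∑ i ∈ Finset.range n, f (ξ i)) := fun n =>
    (Finset.measurable_sum _ fun i _ => hf.comp (measurable_pi_apply i)).const_mul _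
  have hae : ∀ᵐ ξ ∂N.P, ∀ i, N.f (ξ i) = f (ξ i) := by
    rw [ae_all_iff]
    intro i
    exact (N.toChain.mp_eval i).quasiMeasurePreserving.ae hfe
  set μ : ℕ → ProbabilityMeasure ℝ := fun n =>
    ⟨N.P.map (fun ξ : ℕ → S => (Real.sqrt n)⁻¹ * ∑ i ∈ Finset.range n, f (ξ i)),
      Measure.isProbabilityMeasure_map (hSm n).aemeasurable⟩ with hμ
  set μ0 : ProbabilityMeasure ℝ := ⟨gaussianReal 0 v, inferInstance⟩ with hμ0
  have hconv : Filter.Tendsto μ Filter.atTop (nhds μ0) := by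
    rw [ProbabilityMeasure.tendsto_iff_tendsto_charFun]
    intro t
    have h1 := charFun_limit N hN t
    have e0 : charFun (μ0 : Measure ℝ) t = Complex.exp ((-(t ^ 2 * N.σ2 / 2) : ℝ) : ℂ) := by
      show charFun (gaussianReal 0 v) t = _
      rw [charFun_gaussianReal]
      congr 1
      have : ((v : ℝ) : ℂ) = ((N.σ2 : ℝ) : ℂ) := by rw [hv]
      rw [this]
      push_cast
      ring
    rw [e0]
    refine h1.congr fun n => ?_
    show _ = charFun (N.P.map (fun ξ : ℕ → S =>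
      (Real.sqrt n)⁻¹ * ∑ i ∈ Finset.range n, f (ξ i))) t
    rw [charFun_apply_real, integral_map (hSm n).aemeasurable]
    · refine integral_congr_ae ?_
      filter_upwards [hae] with ξ hξ
      simp only [hξ]
      congr 1
      push_cast
      ring
    · exact (by fun_prop : Continuous fun x : ℝ => Complex.exp ((t : ℂ) * (x : ℂ) * Complex.I)).aestronglyMeasurable
  intro g hg hgb
  obtain ⟨C, hC⟩ := hgb
  have h2 := (ProbabilityMeasure.tendsto_iff_forall_integral_tendsto.1 hconv)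
    (BoundedContinuousFunction.ofNormedAddCommGroup g hg C (fun x => by simpa using hC x))
  simp only [BoundedContinuousFunction.coe_ofNormedAddCommGroup] at h2
  refine h2.congr fun n => ?_
  show ∫ x, g x ∂(N.P.map (fun ξ : ℕ → S =>
      (Real.sqrt n)⁻¹ * ∑ i ∈ Finset.range n, f (ξ i))) = _
  rw [integral_map (hSm n).aemeasurable hg.aestronglyMeasurable]

/-- `H45.CLT.main` with the variance made explicit. -/
theorem main_var
    (S : Type) [mS : MeasurableSpace S] (Q : Kernel S S) [IsMarkovKernel Q]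
    (ν : Measure S) [IsProbabilityMeasure ν] (f : S → ℝ)
    (hν : ν.bind Q = ν)
    (herg : ∀ A : Set S, MeasurableSet A →
      (∀ᵐ x ∂ν, Q x A = A.indicator (fun _ => (1 : ENNReal)) x) → ν A = 0 ∨ ν A = 1)
    (hf : Measurable f) (hf2 : MemLp f 2 ν)
    (h1 : Summable (fun k : ℕ => ∫ x, ((Stat.T Q)^[k+1] f x) ^ 2 ∂ν))
    (h2 : ∃ c : ℕ → ℝ, Summable c ∧ ∀ k : ℕ, ∀ g : S → ℝ, Measurable g →
        (∃ C : ℝ, ∀ x, |g x| ≤ C) → ∫ x, g x ^ 2 ∂ν ≤ 1 →
        (∫ x, f x * (Stat.T Q)^[k+1] g x ∂ν) ^ 2 ≤ c k)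
    (Ω : Type) [mΩ : MeasurableSpace Ω] (μ : Measure Ω) [IsProbabilityMeasure μ]
    (X : ℕ → Ω → S)
    (hX : ∀ i, Measurable (X i)) (h0 : μ.map (X 0) = ν)
    (hmarkov : ∀ n : ℕ, ∀ A : Set S, MeasurableSet A →
        condExp (⨆ i ≤ n, MeasurableSpace.comap (X i) mS) μ
          ((X (n+1) ⁻¹' A).indicator (fun _ => (1 : ℝ)))
          =ᵐ[μ] fun ω => (Q (X n ω) A).toReal) :
      ∃ v : NNReal, HasSum (fun k : ℕ => 2 * ∫ x, f x * (Stat.T Q)^[k+1] f x ∂ν)
          ((v : ℝ) - ∫ x, (f x) ^ 2 ∂ν) ∧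
        ∀ g : ℝ → ℝ, Continuous g → (∃ C : ℝ, ∀ x, |g x| ≤ C) →
        Filter.Tendsto
          (fun n : ℕ => ∫ ω, g ((Real.sqrt n)⁻¹ * ∑ i ∈ Finset.range n, f (X i ω)) ∂μ)
          Filter.atTop (nhds (∫ x, g x ∂(gaussianReal 0 v))) := by
  obtain ⟨M, rfl, rfl, hP⟩ := exists_chain Q ν hν μ X hX h0 hmarkov
  obtain ⟨N, hN, hfe⟩ := exists_model M f hf hf2 h1 h2
  subst hN
  have hβ : ∀ q, N.β q =ᵐ[N.ν] (Stat.T N.Q)^[q] f := by
    intro q
    induction q with
    | zero => rw [← N.f_eq]; exact hfe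
    | succ q ih =>
      rw [Function.iterate_succ_apply']
      exact (N.hβ q).eq.trans (Pool.Agent.H43.CLT.Qop_congr (Q := N.Q) N.bind_eq ih)
  obtain ⟨v, hv⟩ : ∃ v : NNReal, (v : ℝ) = N.σ2 := ⟨⟨N.σ2, N.σ2_nonneg⟩, rfl⟩
  refine ⟨v, ?_, ?_⟩
  · have hs := (N.summable_cov).of_abs
    have hs1 : Summable fun q => ∫ x, N.f x * N.β (q + 1) x ∂N.ν :=
      (summable_nat_add_iff 1).2 hs
    have h3 := hs1.hasSum.mul_left 2
    have e1 : ∀ q, 2 * ∫ x, N.f x * N.β (q + 1) x ∂N.ν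
        = 2 * ∫ x, f x * (Stat.T N.Q)^[q+1] f x ∂N.ν := by
      intro q
      congr 1
      refine integral_congr_ae ?_
      filter_upwards [hfe, hβ (q + 1)] with x hx1 hx2
      rw [hx1, hx2]
    have e2 : (v : ℝ) - ∫ x, (f x) ^ 2 ∂N.ν
        = 2 * ∑' q, ∫ x, N.f x * N.β (q + 1) x ∂N.ν := by
      have e3 : ∫ x, (f x) ^ 2 ∂N.ν = ∫ x, (N.f x) ^ 2 ∂N.ν := by
        refine integral_congr_ae ?_
        filter_upwards [hfe] with x hx1
        rw [hx1]
      rw [e3, hv]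
      unfold Model.σ2
      ring
    rw [e2]
    simpa only [e1] using h3
  · intro g hg hgb
    have hlim := clt_chain' N herg f hf hfe v hv g hg hgb
    refine hlim.congr fun n => ?_
    rw [hP]
    refine integral_map (measurable_pi_lambda _ fun i => hX i).aemeasurable ?_
    refine (hg.measurable.comp ?_).aestronglyMeasurable
    refine measurable_const.mul (Finset.measurable_sum _ fun i _ => ?_)
    exact hf.comp (measurable_pi_apply i)

/-! ### The variance of the partial sums -/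

/-- The second moment of a partial sum of a sequence with stationary covariances. -/
theorem var_sum {Ω : Type} {mΩ : MeasurableSpace Ω} {P : Measure Ω} (Y : ℕ → Ω → ℝ)
    (hY : ∀ n, MemLp (Y n) 2 P) (c : ℕ → ℝ)
    (hc : ∀ i k, ∫ ω, Y i ω * Y (i + k) ω ∂P = c k) (n : ℕ) :
    ∫ ω, (∑ i ∈ Finset.range n, Y i ω) ^ 2 ∂P
      = ∑ m ∈ Finset.range n, (c 0 + 2 * ∑ k ∈ Finset.range m, c (k + 1)) := by
  induction n with
  | zero => simp
  | succ n ih =>
    have hS : MemLp (fun ω => ∑ i ∈ Finset.range n, Y i ω) 2 P :=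
      memLp_finsetSum _ fun i _ => hY i
    have i1 := hS.integrable_sq
    have i2 : Integrable (fun ω => (∑ i ∈ Finset.range n, Y i ω) * Y n ω) P :=
      hS.integrable_mul (hY n)
    have i3 : Integrable (fun ω => Y n ω * Y n ω) P := (hY n).integrable_mul (hY n)
    have e1 : ∫ ω, (∑ i ∈ Finset.range (n + 1), Y i ω) ^ 2 ∂P
        = ∫ ω, (((∑ i ∈ Finset.range n, Y i ω) ^ 2 + 2 * ((∑ i ∈ Finset.range n, Y i ω) * Y n ω))
          + Y n ω * Y n ω) ∂P := by
      refine integral_congr_ae (Filter.Eventually.of_forall fun ω => ?_)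
      simp only [Finset.sum_range_succ]
      ring
    have e2 : ∫ ω, (((∑ i ∈ Finset.range n, Y i ω) ^ 2
          + 2 * ((∑ i ∈ Finset.range n, Y i ω) * Y n ω)) + Y n ω * Y n ω) ∂P
        = ∫ ω, ((∑ i ∈ Finset.range n, Y i ω) ^ 2
          + 2 * ((∑ i ∈ Finset.range n, Y i ω) * Y n ω)) ∂P + ∫ ω, Y n ω * Y n ω ∂P :=
      integral_add (i1.add (i2.const_mul 2)) i3
    have e3 : ∫ ω, ((∑ i ∈ Finset.range n, Y i ω) ^ 2
          + 2 * ((∑ i ∈ Finset.range n, Y i ω) * Y n ω)) ∂P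
        = ∫ ω, (∑ i ∈ Finset.range n, Y i ω) ^ 2 ∂P
          + 2 * ∫ ω, (∑ i ∈ Finset.range n, Y i ω) * Y n ω ∂P := by
      rw [integral_add i1 (i2.const_mul 2), integral_const_mul]
    have e4 : ∫ ω, (∑ i ∈ Finset.range n, Y i ω) * Y n ω ∂P
        = ∑ k ∈ Finset.range n, c (k + 1) := by
      have h1 : ∀ ω, (∑ i ∈ Finset.range n, Y i ω) * Y n ω
          = ∑ i ∈ Finset.range n, Y i ω * Y n ω := fun ω => Finset.sum_mul _ _ _
      simp only [h1]
      have h2 : ∀ i ∈ Finset.range n, Integrable (fun ω => Y i ω * Y n ω) P :=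
        fun i _ => (hY i).integrable_mul (hY n)
      rw [integral_finsetSum _ h2]
      rw [← Finset.sum_range_reflect]
      refine Finset.sum_congr rfl fun k hk => ?_
      have hk' := Finset.mem_range.1 hk
      have := hc (n - 1 - k) (k + 1)
      rwa [show n - 1 - k + (k + 1) = n by omega] at this
    rw [e1, e2, e3, e4, ih, Finset.sum_range_succ]
    have e5 : ∫ ω, Y n ω * Y n ω ∂P = c 0 := hc n 0
    rw [e5]
    ring

/-- The asymptotic variance. -/
theorem tendsto_var {Ω : Type} {mΩ : MeasurableSpace Ω} {P : Measure Ω} (Y : ℕ → Ω → ℝ)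
    (hY : ∀ n, MemLp (Y n) 2 P) (c : ℕ → ℝ)
    (hc : ∀ i k, ∫ ω, Y i ω * Y (i + k) ω ∂P = c k) (v : ℝ)
    (hv : HasSum (fun k => 2 * c (k + 1)) (v - c 0)) :
    Tendsto (fun n : ℕ => (∫ ω, (∑ i ∈ Finset.range n, Y i ω) ^ 2 ∂P) / n) atTop (𝓝 v) := by
  have h1 : Tendsto (fun m : ℕ => c 0 + 2 * ∑ k ∈ Finset.range m, c (k + 1)) atTop (𝓝 v) := by
    have h2 := hv.tendsto_sum_nat.const_add (c 0)
    rw [add_sub_cancel] at h2
    refine h2.congr fun m => ?_
    rw [← Finset.mul_sum]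
  refine h1.cesaro.congr fun n => ?_
  rw [var_sum Y hY c hc n, div_eq_inv_mul]

end Pool.Agent.H42.TS
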